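import Pool.Agent.Lib_helper7.TC.Defs

/-!
# TC10: rational points of a rational intersection of hyperplanes
-/

set_option autoImplicit false

namespace Pool.Agent.TC

/-- Vectors fixed by a Frobenius semilinear map: independence over the small field implies
independence over the large one. -/
theorem tc10_fix {F κ V : Type*} [Field F] [Field κ] [Algebra F κ] [AddCommGroup V] [Module κ V]
    [Module F V] [IsScalarTower F κ V] {q : ℕ}
    (hF : ∀ c : κ, c ^ q = c → c ∈ Set.range (algebraMap F κ)) (Φ : V →+ V)
    (hΦ : ∀ (c : κ) (v : V), Φ (c • v) = c ^ q • Φ v) {ι : Type*} (v : ι → V)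
    (hv : ∀ i, Φ (v i) = v i) (h : LinearIndependent F v) : LinearIndependent κ v := by
  classical
  rw [linearIndependent_iff']
  intro s
  induction s using Finset.strongInduction with
  | H s ih =>
    intro g hg i hi
    by_contra hgi
    set c : ι → κ := fun j => g j / g i with hc
    have hci : c i = 1 := div_self hgi
    have hsum : ∑ j ∈ s, c j • v j = 0 := by
      have h1 : ∑ j ∈ s, c j • v j = (g i)⁻¹ • ∑ j ∈ s, g j • v j := by
        rw [Finset.smul_sum]
        refine Finset.sum_congr rfl fun j _ => ?_
        rw [smul_smul, ← div_eq_inv_mul]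
      rw [h1, hg, smul_zero]
    have hsumq : ∑ j ∈ s, (c j ^ q) • v j = 0 := by
      have h2 := congrArg Φ hsum
      rw [map_sum, map_zero] at h2
      rw [← h2]
      refine Finset.sum_congr rfl fun j _ => ?_
      rw [hΦ, hv]
    have hdiff : ∑ j ∈ s.erase i, (c j ^ q - c j) • v j = 0 := by
      have h3 : ∑ j ∈ s, (c j ^ q - c j) • v j = 0 := by
        simp only [sub_smul, Finset.sum_sub_distrib, hsum, hsumq, sub_zero]
      rw [← Finset.add_sum_erase _ _ hi, hci, one_pow, sub_self, zero_smul, zero_add] at h3
      exact h3
    have hfix : ∀ j ∈ s, c j ^ q = c j := by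
      intro j hj
      rcases eq_or_ne j i with rfl | hji
      · rw [hci, one_pow]
      · exact sub_eq_zero.1 (ih (s.erase i) (Finset.erase_ssubset hi) _ hdiff j
          (Finset.mem_erase.2 ⟨hji, hj⟩))
    have hex : ∀ j, ∃ a : F, j ∈ s → algebraMap F κ a = c j := by
      intro j
      by_cases hj : j ∈ s
      · obtain ⟨a, ha⟩ := hF (c j) (hfix j hj)
        exact ⟨a, fun _ => ha⟩
      · exact ⟨0, fun h' => absurd h' hj⟩
    choose a ha using hex
    have hsa : ∑ j ∈ s, a j • v j = 0 := by
      rw [← hsum]
      refine Finset.sum_congr rfl fun j hj => ?_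
      rw [← ha j hj, algebraMap_smul]
    have h0 := linearIndependent_iff'.1 h s a hsa i hi
    have h1 := ha i hi
    rw [h0, map_zero, hci] at h1
    exact zero_ne_one h1

/-- The `F`-linear map given by the forms `l i`, `i ∈ T`. -/
noncomputable def tc10_psi {F κ : Type*} [Field F] [Field κ] [Algebra F κ] {n M : ℕ}
    (l : Fin n → Fin M → κ) (T : Finset (Fin n)) : (Fin M → F) →ₗ[F] (T → κ) where
  toFun x i := ∑ j, l i j * algebraMap F κ (x j)
  map_add' x y := by
    funext i
    simp only [Pi.add_apply, map_add, mul_add, Finset.sum_add_distrib]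
  map_smul' a x := by
    funext i
    simp only [Pi.smul_apply, smul_eq_mul, map_mul, RingHom.id_apply, Algebra.smul_def,
      Finset.mul_sum]
    exact Finset.sum_congr rfl fun j _ => by ring

theorem tc10_pr {F κ : Type*} [Field F] [Fintype F] [DecidableEq F] [Field κ] [Algebra F κ]
    [DecidableEq κ]
    (hF : ∀ c : κ, c ^ Fintype.card F = c → c ∈ Set.range (algebraMap F κ)) {n M : ℕ}
    (l : Fin n → Fin M → κ) (g : Equiv.Perm (Fin n))
    (hl : ∀ i j, l (g i) j = l i j ^ Fintype.card F) (T : Finset (Fin n))
    (hT : ∀ i ∈ T, g i ∈ T) (hTM : T.card ≤ M)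
    (hi : LinearIndependent κ fun i : T => l i) :
    Fintype.card {x : Fin M → F // ∀ i ∈ T, ∑ j, l i j * algebraMap F κ (x j) = 0} =
      Fintype.card F ^ (M - T.card) := by
  classical
  set q := Fintype.card F with hq
  let fr : κ →ₐ[F] κ := FiniteField.frobeniusAlgHom F κ
  have hfr : ∀ c, fr c = c ^ q := fun c => rfl
  have hfra : ∀ a : F, algebraMap F κ a ^ q = algebraMap F κ a := fun a => by
    rw [← hfr, fr.commutes]
  -- the permutation of `T`
  let gT : T → T := fun i => ⟨g i, hT i i.2⟩
  have hginj : Function.Injective gT := by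
    intro a b hab
    have : g a = g b := congrArg Subtype.val hab
    exact Subtype.ext (g.injective this)
  let gE : Equiv.Perm T := Equiv.ofBijective gT (Finite.injective_iff_bijective.1 hginj)
  have hgE : ∀ i : T, ((gE i : T) : Fin n) = g i := fun i => rfl
  -- the twisted Frobenius on `κ ^ T`
  let Φ : (T → κ) →+ (T → κ) :=
    { toFun := fun w i => (w (gE.symm i)) ^ q
      map_zero' := by
        funext i
        show (0 : κ) ^ q = 0
        exact zero_pow Fintype.card_ne_zero
      map_add' := fun w w' => by
        funext i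
        show (w (gE.symm i) + w' (gE.symm i)) ^ q = w (gE.symm i) ^ q + w' (gE.symm i) ^ q
        rw [← hfr, map_add, hfr, hfr] }
  have hΦ : ∀ (c : κ) (w : T → κ), Φ (c • w) = c ^ q • Φ w := by
    intro c w
    funext i
    show (c * w (gE.symm i)) ^ q = c ^ q * w (gE.symm i) ^ q
    rw [mul_pow]
  let ψ := tc10_psi (F := F) l T
  have hψ : ∀ x, Φ (ψ x) = ψ x := by
    intro x
    funext i
    show (∑ j, l (gE.symm i : T) j * algebraMap F κ (x j)) ^ q =
      ∑ j, l i j * algebraMap F κ (x j)
    rw [← hfr, map_sum]
    refine Finset.sum_congr rfl fun j _ => ?_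
    rw [map_mul, hfr, hfr, hfra, ← hl, ← hgE, Equiv.apply_symm_apply]
  -- upper bound for the rank
  have hr : Module.finrank F (LinearMap.range ψ) ≤ T.card := by
    let b := Module.finBasis F (LinearMap.range ψ)
    have h1 : LinearIndependent F fun i => ((b i : LinearMap.range ψ) : T → κ) :=
      b.linearIndependent.map' (LinearMap.range ψ).subtype (Submodule.ker_subtype _)
    have h2 : LinearIndependent κ fun i => ((b i : LinearMap.range ψ) : T → κ) := by
      refine tc10_fix hF Φ hΦ _ (fun i => ?_) h1
      obtain ⟨x, hx⟩ := (b i).2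
      rw [← hx]
      exact hψ x
    have h3 := h2.fintype_card_le_finrank
    rw [Fintype.card_fin, Module.finrank_fintype_fun_eq_card, Fintype.card_coe] at h3
    exact h3
  -- upper bound for the dimension of the kernel
  let L : (Fin M → κ) →ₗ[κ] (T → κ) := (Matrix.of fun (i : T) j => l i j).mulVecLin
  have hL : Module.finrank κ (LinearMap.ker L) = M - T.card := by
    have h1 := LinearMap.finrank_range_add_finrank_ker L
    have h2 : Module.finrank κ (LinearMap.range L) = T.card := by
      have h3 := LinearIndependent.rank_matrix (M := Matrix.of fun (i : T) j => l i j) hi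
      rw [Fintype.card_coe] at h3
      exact h3
    rw [h2, Module.finrank_fintype_fun_eq_card, Fintype.card_fin] at h1
    omega
  let Fr : (Fin M → κ) →+ (Fin M → κ) :=
    { toFun := fun w j => (w j) ^ q
      map_zero' := by
        funext i
        show (0 : κ) ^ q = 0
        exact zero_pow Fintype.card_ne_zero
      map_add' := fun w w' => by
        funext i
        show (w i + w' i) ^ q = w i ^ q + w' i ^ q
        rw [← hfr, map_add, hfr, hfr] }
  have hFr : ∀ (c : κ) (w : Fin M → κ), Fr (c • w) = c ^ q • Fr w := by
    intro c w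
    funext i
    show (c * w i) ^ q = c ^ q * w i ^ q
    rw [mul_pow]
  let E : (Fin M → F) →ₗ[F] (Fin M → κ) :=
    { toFun := fun x j => algebraMap F κ (x j)
      map_add' := fun x y => by funext j; simp
      map_smul' := fun a x => by funext j; simp [Algebra.smul_def] }
  have hE : LinearMap.ker E = ⊥ := by
    rw [LinearMap.ker_eq_bot]
    intro x y hxy
    funext j
    exact (algebraMap F κ).injective (congrFun hxy j)
  have hk : Module.finrank F (LinearMap.ker ψ) ≤ M - T.card := by
    let b := Module.finBasis F (LinearMap.ker ψ)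
    have h1 : LinearIndependent F fun i => E ((b i : LinearMap.ker ψ) : Fin M → F) :=
      (b.linearIndependent.map' (LinearMap.ker ψ).subtype (Submodule.ker_subtype _)).map' E hE
    have h2 : LinearIndependent κ fun i => E ((b i : LinearMap.ker ψ) : Fin M → F) := by
      refine tc10_fix hF Fr hFr _ (fun i => ?_) h1
      funext j
      exact hfra _
    have hmem : ∀ i, E ((b i : LinearMap.ker ψ) : Fin M → F) ∈ LinearMap.ker L := by
      intro i
      rw [LinearMap.mem_ker]
      funext t
      have h4 := congrFun (LinearMap.mem_ker.1 (b i).2) t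
      show (Matrix.of fun (i : T) j => l i j).mulVec (E (b i)) t = 0
      exact h4
    have h5 : LinearIndependent κ fun i =>
        (⟨E ((b i : LinearMap.ker ψ) : Fin M → F), hmem i⟩ : LinearMap.ker L) :=
      LinearIndependent.of_comp (LinearMap.ker L).subtype h2
    have h6 := h5.fintype_card_le_finrank
    rw [Fintype.card_fin, hL] at h6
    exact h6
  have hrn := LinearMap.finrank_range_add_finrank_ker ψ
  rw [Module.finrank_fintype_fun_eq_card, Fintype.card_fin] at hrn
  have hker : Module.finrank F (LinearMap.ker ψ) = M - T.card := by omega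
  have hcard : Fintype.card {x : Fin M → F // ∀ i ∈ T, ∑ j, l i j * algebraMap F κ (x j) = 0} =
      Nat.card (LinearMap.ker ψ) := by
    rw [← Nat.card_eq_fintype_card]
    refine Nat.card_congr (Equiv.subtypeEquivRight fun x => ?_)
    rw [LinearMap.mem_ker]
    constructor
    · intro h
      funext i
      exact h i i.2
    · intro h i hiT
      exact congrFun h ⟨i, hiT⟩
  rw [hcard, Module.natCard_eq_pow_finrank (K := F), hker, Nat.card_eq_fintype_card]

end Pool.Agent.TC
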